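import Pool.Agent.Q171.RC.Seq

/-!
# Entire curves given by functional equations: maps from tori through every point

We consider holomorphic maps `f : ℂ → X` to closed subsets `X` of the complex projective `n`-space
with meromorphic homogeneous coordinates `h_j` each of which satisfies a nontrivial linear functional
equation `∑ P_k (t z) h_j (σ^k z) = 0`, `k ≤ r`, with polynomials `P_k` of degree at most `e`
(`LinCurve r e σ t f`). Here `σ` is a nonconstant entire function and `t` is an entire function with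
`t (σ z) = α t z + β` for some constants `α`, `β`; for instance `σ z = q z` and `t z = z`
(`q`-difference equations), `σ z = z + b` and `t z = z` (difference equations) or `σ z = z + b` and
`t z = exp (c z)`.

For all `n`, `D`, `r`, `e` there is ONE number `δ` such that the following holds for ALL closed
subsets `X` of projective `n`-space which are defined by forms of degree at most `D`.

(1) For all `σ`, `t` as above such that `t ∘ σ^k ≠ t` for `0 < k ≤ δ`, all such curves `f` in `X`
satisfy `f ∘ σ^k = f` for some `0 < k ≤ δ`, or for EVERY `z` and EVERY lattice `L` in the plane there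
is a nonconstant holomorphic map `g` from the torus `ℂ / L` to `X`, given by polynomials of degree at
most `δ` at the Weierstrass function of `L`, with `g(0) = f(z)`.

(2) For all `q` which are not zero and not roots of unity, all nonconstant entire curves `f` in `X`
given by `q`-difference equations of order at most `r` with polynomial coefficients of degree at most
`e` have the second property.

In particular, if all holomorphic maps to `X` from some torus of dimension one are constant, all the
entire curves given by `q`-difference equations are constant.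
-/

set_option autoImplicit false

namespace Pool.Agent.Results.MP_45e720_ag.FunctionalCurvesPoints

open MvPolynomial Filter Topology Pool.Agent.Q309.DU Pool.Agent.Q171.RC
open Pool.Agent.TH143.EL (HolMap)
open scoped LinearAlgebra.Projectivization PeriodPair

/-- The map `g` from the plane to projective space is holomorphic: near each point it is given by
homogeneous coordinates which are holomorphic and have no common zero. -/
def Holomorphic {n : ℕ} (g : ℂ → ℙ ℂ (Fin (n + 1) → ℂ)) : Prop :=
  ∀ z, ∃ φ : ℂ → Fin (n + 1) → ℂ, AnalyticAt ℂ φ z ∧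
    ∀ᶠ w in 𝓝 z, ∃ h : φ w ≠ 0, g w = Projectivization.mk ℂ (φ w) h

/-- `g` is a nonconstant holomorphic map from the torus `ℂ / L` to the projective variety of `S`, given
by polynomials of degree at most `δ` at the Weierstrass function of `L`. -/
def IsTorusMap {n : ℕ} (L : PeriodPair) (S : Set (MvPolynomial (Fin (n + 1)) ℂ)) (δ : ℕ)
    (g : ℂ → ℙ ℂ (Fin (n + 1) → ℂ)) : Prop :=
  Holomorphic g ∧ (∀ l ∈ L.lattice, ∀ z, g (z + l) = g z) ∧
    (∀ z, ∀ F ∈ S, eval (g z).rep F = 0) ∧ (∃ z w, g z ≠ g w) ∧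
    ∃ Q : Fin (n + 1) → Polynomial ℂ, (∀ j, (Q j).natDegree ≤ δ) ∧
      ∀ z, z ∉ L.lattice → ∃ h : (fun j => (Q j).eval (℘[L] z)) ≠ 0,
        g z = Projectivization.mk ℂ _ h

theorem result (n D r e : ℕ) : ∃ δ : ℕ, ∀ S : Set (MvPolynomial (Fin (n + 1)) ℂ),
    (∀ F ∈ S, ∃ e, e ≤ D ∧ F.IsHomogeneous e) →
    (∀ (σ t : ℂ → ℂ) (α β : ℂ), Differentiable ℂ σ → (∃ z w, σ z ≠ σ w) → Differentiable ℂ t →
      (∀ z, t (σ z) = α * t z + β) → (∀ k, 0 < k → k ≤ δ → ∃ z, t (σ^[k] z) ≠ t z) →
      ∀ f : ℂ → ℙ ℂ (Fin (n + 1) → ℂ), HolMap f → (∀ z, ∀ F ∈ S, eval (f z).rep F = 0) →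
        LinCurve r e σ t f →
        (∃ k, 0 < k ∧ k ≤ δ ∧ ∀ z, f (σ^[k] z) = f z) ∨
          ∀ (z : ℂ) (L : PeriodPair), ∃ g, IsTorusMap L S δ g ∧ g 0 = f z) ∧
    ∀ q : ℂ, q ≠ 0 → (∀ m : ℕ, 0 < m → q ^ m ≠ 1) →
      ∀ f : ℂ → ℙ ℂ (Fin (n + 1) → ℂ), HolMap f → (∀ z, ∀ F ∈ S, eval (f z).rep F = 0) →
        (∃ z w, f z ≠ f w) → LinCurve r e (fun z => q * z) (fun z => z) f →
          ∀ (z : ℂ) (L : PeriodPair), ∃ g, IsTorusMap L S δ g ∧ g 0 = f z := by
  obtain ⟨δ, hδ⟩ := fun_locus n D r e
  refine ⟨δ, fun S hS => ?_⟩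
  have hS' : ∀ F ∈ S, ∃ e, F.IsHomogeneous e := fun F hF => by
    obtain ⟨e, -, he⟩ := hS F hF
    exact ⟨e, he⟩
  have key : ∀ f : ℂ → ℙ ℂ (Fin (n + 1) → ℂ), (∀ z, OnRat S δ (f z).rep) →
      ∀ (z : ℂ) (L : PeriodPair), ∃ g, IsTorusMap L S δ g ∧ g 0 = f z := by
    intro f hf z L
    obtain ⟨g, h1, h2, h3, h4, h5, h6⟩ := torus_through L hS' (f z).rep_nonzero (hf z)
    exact ⟨g, ⟨h1, h3, fun z F hF => h2 z ⟨F, hF⟩, h4, h6⟩, h5.trans (Projectivization.mk_rep _)⟩
  refine ⟨fun σ t α β hσ hσn ht hαβ hord f hf hX hl => ?_, fun q hq0 hqr f hf hX hnc hl => ?_⟩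
  · rcases hδ S hS σ t α β hσ hσn ht hαβ hord f hf hX hl with h1 | h1
    · exact Or.inr (key f h1)
    · exact Or.inl h1
  · rcases hδ S hS (fun z => q * z) (fun z => z) q 0 (differentiable_id.const_mul q)
      ⟨0, 1, by simpa using hq0.symm⟩ differentiable_id (fun z => by simp) (fun k hk _ => ⟨1, by
        simp only [mul_iter, mul_one]
        exact hqr k hk⟩) f hf hX hl with h1 | ⟨k, hk, -, hinv⟩
    · exact key f h1
    · exfalso
      obtain ⟨z, w, hzw⟩ := hnc
      exact hzw (const_of_dil hqr hf hl hk hinv z w)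

end Pool.Agent.Results.MP_45e720_ag.FunctionalCurvesPoints
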