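import Pool.Agent.Q309.PO.Str
import Pool.Agent.Y564.IL.Tay

/-!
# Curves given by functional equations over polynomial maps: maps from tori through every point

We consider holomorphic curves in closed subsets `X` of the complex projective `n`-space given by
linear functional equations whose coefficients are polynomials in a function `t` with
`t ∘ σ = ρ ∘ t`, where `ρ` is a polynomial of degree at most `q`.

For all `n`, `D`, `r`, `e`, `q` there is ONE number `δ` such that the following holds for ALL closed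
subsets `X` of projective `n`-space which are defined by forms of degree at most `D`.

(1) Let `σ`, `t` be entire functions, `σ` not constant, `t ∘ σ = ρ ∘ t` and `t ∘ σ^k ≠ t` for
`0 < k ≤ δ`. A holomorphic map `f : ℂ → X` with meromorphic homogeneous coordinates, which satisfy
nontrivial equations `∑ P_k (t z) h_j (σ^k z) = 0`, `k ≤ r`, `deg P_k ≤ e`, satisfies `f ∘ σ^k = f`
for some `0 < k ≤ δ`, or for EVERY `z` and EVERY lattice `L` in the plane there is a nonconstant
holomorphic map `g` from the torus `ℂ / L` to `X`, given by polynomials of degree at most `δ` at the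
Weierstrass function of `L`, with `g(0) = f(z)`.

(2) Let `λ ≠ 0` be not a root of unity and `t` a nonconstant entire function with
`t(λ z) = ρ(t(z))` (for instance the Poincaré function of `ρ` at a repelling fixed point with the
multiplier `λ`; `exp` and `cos` for integers `λ`; `t(z) = z` for `q`-difference equations). The second
case of (1) holds for all nonconstant entire curves in `X` of this kind (`σ(z) = λ z`).

(3) It also holds at all points of all nonconstant holomorphic curves in `X` on the unit disc with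
holomorphic homogeneous coordinates given by `p`-Mahler equations
`∑ P_k(z) h_j(z^(p^k)) = 0`, `k ≤ r`, `deg P_k ≤ e`, for all `2 ≤ p ≤ q`.

In particular, if all holomorphic maps to `X` from some torus of dimension one are constant, then all
the curves in (2) and (3) are constant.
-/

set_option autoImplicit false

namespace Pool.Agent.Results.MP_45e720_ag.NonlinearFunctionalCurves

open MvPolynomial Filter Topology Metric Pool.Agent.Q309.DU Pool.Agent.Q309.PO Pool.Agent.Q171.RC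
open Pool.Agent.TH143.EL (HolMap)
open scoped LinearAlgebra.Projectivization PeriodPair

/-- The map `g` from the plane to projective space is holomorphic: near each point it is given by
homogeneous coordinates which are holomorphic and have no common zero. -/
def Holomorphic {n : ℕ} (g : ℂ → ℙ ℂ (Fin (n + 1) → ℂ)) : Prop :=
  ∀ z, ∃ φ : ℂ → Fin (n + 1) → ℂ, AnalyticAt ℂ φ z ∧
    ∀ᶠ w in 𝓝 z, ∃ h : φ w ≠ 0, g w = Projectivization.mk ℂ (φ w) h

/-- `g` is a nonconstant holomorphic map from the torus `ℂ / L` to the projective variety of `S`, given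
by polynomials of degree at most `δ` at the Weierstrass function of `L`. -/
def IsTorusMap {n : ℕ} (L : PeriodPair) (S : Set (MvPolynomial (Fin (n + 1)) ℂ)) (δ : ℕ)
    (g : ℂ → ℙ ℂ (Fin (n + 1) → ℂ)) : Prop :=
  Holomorphic g ∧ (∀ l ∈ L.lattice, ∀ z, g (z + l) = g z) ∧
    (∀ z, ∀ F ∈ S, eval (g z).rep F = 0) ∧ (∃ z w, g z ≠ g w) ∧
    ∃ Q : Fin (n + 1) → Polynomial ℂ, (∀ j, (Q j).natDegree ≤ δ) ∧
      ∀ z, z ∉ L.lattice → ∃ h : (fun j => (Q j).eval (℘[L] z)) ≠ 0,
        g z = Projectivization.mk ℂ _ h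

/-- a nonconstant entire function is not invariant under a dilation of infinite order -/
theorem not_inv {t : ℂ → ℂ} (ht : Differentiable ℂ t) (hn : ∃ z w, t z ≠ t w) {μ : ℂ}
    (hμ : ∀ m : ℕ, 0 < m → μ ^ m ≠ 1) : ∃ z, t (μ * z) ≠ t z := by
  by_contra hcon
  push Not at hcon
  obtain ⟨z, w, hzw⟩ := hn
  have han : AnalyticOnNhd ℂ t Set.univ := fun z _ => ht.analyticAt z
  have hT := Pool.Agent.Y564.IL.t_TAY 0
  have h1 : ∀ j : ℕ, 0 < j → iteratedDeriv j t 0 = 0 := by
    intro j hj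
    have h2 := iteratedDeriv_comp_const_mul (n := j) (f := t) ht.contDiff μ
    have h3 : (fun x => t (μ * x)) = t := funext hcon
    rw [h3] at h2
    have h4 := congrFun h2 0
    beta_reduce at h4
    rw [mul_zero] at h4
    have h5 : (μ ^ j - 1) * iteratedDeriv j t 0 = 0 := by linear_combination -h4
    exact (mul_eq_zero.1 h5).resolve_left (sub_ne_zero.2 (hμ j hj))
  have h6 : Pool.Agent.Y377.IL.tay 0 t = Pool.Agent.Y377.IL.tay 0 fun _ => t 0 := by
    ext j
    rw [Pool.Agent.Y564.IL.tay_coeff, Pool.Agent.Y564.IL.tay_coeff, iteratedDeriv_const]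
    rcases Nat.eq_zero_or_pos j with rfl | hj
    · rw [iteratedDeriv_zero, if_pos rfl]
    · rw [h1 j hj, if_neg hj.ne']
  have h7 : Pool.Agent.Y377.IL.tay 0 (fun z => t z + (-t 0)) = 0 := by
    rw [(hT.2.1 t (fun _ => -t 0) (ht.analyticAt 0) analyticAt_const).1, h6,
      ← (hT.2.1 (fun _ => t 0) (fun _ => -t 0) analyticAt_const analyticAt_const).1]
    have h8 : (fun _ : ℂ => t 0 + -t 0) = fun _ => (0 : ℂ) := by
      funext _
      exact add_neg_cancel _
    rw [h8, hT.1, map_zero]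
  have h9 := hT.2.2.2.2 _ ((ht.analyticAt 0).add analyticAt_const) h7
  have h10 : ∀ y, t y + (-t 0) = 0 := fun y =>
    (AnalyticOnNhd.add han analyticOnNhd_const).eqOn_zero_of_preconnected_of_eventuallyEq_zero
      isPreconnected_univ (Set.mem_univ 0) h9 (Set.mem_univ y)
  apply hzw
  linear_combination h10 z - h10 w

theorem result (n D r e q : ℕ) : ∃ δ : ℕ, ∀ S : Set (MvPolynomial (Fin (n + 1)) ℂ),
    (∀ F ∈ S, ∃ e, e ≤ D ∧ F.IsHomogeneous e) →
    (∀ (σ t : ℂ → ℂ) (ρ : Polynomial ℂ), Differentiable ℂ σ → (∃ z w, σ z ≠ σ w) →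
      Differentiable ℂ t → ρ.natDegree ≤ q → (∀ z, t (σ z) = ρ.eval (t z)) →
      (∀ k, 0 < k → k ≤ δ → ∃ z, t (σ^[k] z) ≠ t z) →
      ∀ f : ℂ → ℙ ℂ (Fin (n + 1) → ℂ), HolMap f → (∀ z, ∀ F ∈ S, eval (f z).rep F = 0) →
        LinCurve r e σ t f →
        (∃ k, 0 < k ∧ k ≤ δ ∧ ∀ z, f (σ^[k] z) = f z) ∨
          ∀ (z : ℂ) (L : PeriodPair), ∃ g, IsTorusMap L S δ g ∧ g 0 = f z) ∧
    (∀ lam : ℂ, lam ≠ 0 → (∀ m : ℕ, 0 < m → lam ^ m ≠ 1) → ∀ (t : ℂ → ℂ) (ρ : Polynomial ℂ),
      Differentiable ℂ t → (∃ z w, t z ≠ t w) → ρ.natDegree ≤ q →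
      (∀ z, t (lam * z) = ρ.eval (t z)) →
      ∀ f : ℂ → ℙ ℂ (Fin (n + 1) → ℂ), HolMap f → (∀ z, ∀ F ∈ S, eval (f z).rep F = 0) →
        (∃ z w, f z ≠ f w) → LinCurve r e (fun z => lam * z) t f →
          ∀ (z : ℂ) (L : PeriodPair), ∃ g, IsTorusMap L S δ g ∧ g 0 = f z) ∧
    ∀ p : ℕ, 2 ≤ p → p ≤ q → ∀ h : ℂ → Fin (n + 1) → ℂ, MahlerDisc r e p S h →
      ∀ z ∈ ball (0 : ℂ) 1, ∀ hz : h z ≠ 0, ∀ L : PeriodPair,
        ∃ g, IsTorusMap L S δ g ∧ g 0 = Projectivization.mk ℂ (h z) hz := by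
  obtain ⟨δ1, hδ1⟩ := pla_strong n D r e q
  obtain ⟨δ2, hδ2⟩ := mahler_strong n D r e q
  refine ⟨max δ1 δ2, fun S hS => ?_⟩
  have hS' : ∀ F ∈ S, ∃ e, F.IsHomogeneous e := fun F hF => by
    obtain ⟨e, -, he⟩ := hS F hF
    exact ⟨e, he⟩
  have key : ∀ (x : Fin (n + 1) → ℂ) (hx : x ≠ 0), OnRat S (max δ1 δ2) x →
      ∀ L : PeriodPair, ∃ g, IsTorusMap L S (max δ1 δ2) g ∧ g 0 = Projectivization.mk ℂ x hx := by
    intro x hx h L
    obtain ⟨g, h1, h2, h3, h4, h5, h6⟩ := torus_through L hS' hx h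
    exact ⟨g, ⟨h1, h3, fun z F hF => h2 z ⟨F, hF⟩, h4, h6⟩, h5⟩
  have keyf : ∀ f : ℂ → ℙ ℂ (Fin (n + 1) → ℂ), (∀ z, OnRat S δ1 (f z).rep) →
      ∀ (z : ℂ) (L : PeriodPair), ∃ g, IsTorusMap L S (max δ1 δ2) g ∧ g 0 = f z := by
    intro f hf z L
    obtain ⟨g, h1, h2⟩ := key (f z).rep (f z).rep_nonzero ((hf z).mono' (le_max_left _ _)) L
    exact ⟨g, h1, h2.trans (Projectivization.mk_rep _)⟩
  refine ⟨fun σ t ρ hσ hσn ht hρ hρt hord f hf hX hl => ?_,
    fun lam hl0 hlr t ρ ht htn hρ hρt f hf hX hnc hl => ?_, fun p hp hpq h H z hz hz0 L => ?_⟩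
  · rcases hδ1 S hS σ t ρ hσ hσn ht hρ hρt (fun k hk hk' => hord k hk
      (hk'.trans (le_max_left _ _))) f hf hX hl with h1 | ⟨k, hk, hk', h1⟩
    · exact Or.inr (keyf f h1)
    · exact Or.inl ⟨k, hk, hk'.trans (le_max_left _ _), h1⟩
  · rcases hδ1 S hS (fun z => lam * z) t ρ (differentiable_id.const_mul lam)
      ⟨0, 1, by simpa using hl0.symm⟩ ht hρ hρt (fun k hk _ => by
        simp only [mul_iter]
        exact not_inv ht htn fun m hm => by
          rw [← pow_mul]
          exact hlr _ (Nat.mul_pos hk hm)) f hf hX hl with h1 | ⟨k, hk, -, hinv⟩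
    · exact keyf f h1
    · exfalso
      obtain ⟨z, w, hzw⟩ := hnc
      exact hzw (const_of_dil hlr hf hl hk hinv z w)
  · exact key (h z) hz0 ((hδ2 S hS p hp hpq h H z hz hz0).mono' (le_max_right _ _)) L

end Pool.Agent.Results.MP_45e720_ag.NonlinearFunctionalCurves
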