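import Pool.Agent.Q139.EG.Hyp

set_option autoImplicit false

/-!
# Varieties without maps from complex tori, curves with small coefficients

We consider curves given by `s` iterated linear differential equations with matrices of size `r` and
polynomials of degree at most `e`, with coefficients in a ring `M` of analytic functions
(`MVec Ω M s r e f`: there are invertible matrices
`X_1(z), ..., X_s(z)` of size `r` of analytic functions on `Ω` such that the entries of
`X_l'(z) X_l(z)⁻¹` are polynomials with coefficients in `M`, of degree at most `e` in each variable,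
in the entries of `X_i(z)`, `X_i(z)⁻¹`, `i < l`, and the coordinates of `f(z)` are such polynomials
in the entries of all these matrices).

For all `n`, `D0`, `s`, `r`, `e` there is `D` such that for all closed subvarieties `X` of the complex
projective `n`-space given by forms of degree at most `D0` such that every holomorphic map from a
one-dimensional complex torus to `X` is constant:

(1) for all domains `Ω` and ALL rings `M` of analytic functions on `Ω` which contain the constants
and are closed under differentiation, every curve `f : Ω → X` with `MVec Ω M s r e f` is algebraic of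
degree at most `D` over `M`;

(2) every entire curve `f : ℂ → X` given by `s` iterated linear differential equations with
SMALL coefficients: meromorphic functions `a` on the plane such that `T(r, a^(k)) = o(T(r, f))` for
all `k` (`SmallCurve s r e f`) is constant;

(3) for all subgroups `L` of the plane every entire curve `f : ℂ → X` given by `s` iterated linear
differential equations with arbitrary meromorphic coefficients with the periods `L` (`PerCurve L s r e f`) is invariant
under a subgroup of index at most `D` of `L`, and constant if `L` contains a lattice.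
-/

namespace Pool.Agent.Results.MP_45e720_ag.SmallCoefficients

open MvPolynomial Pool.Agent.Q139.EG Pool.Agent.TH143.EL
open Pool.Agent.Q139.EB (TorusFree OnV)
open scoped LinearAlgebra.Projectivization

theorem result (n D0 s r e : ℕ) : ∃ D : ℕ,
    ∀ S : Set (MvPolynomial (Fin (n + 1)) ℂ), (∀ F ∈ S, ∃ k, k ≤ D0 ∧ F.IsHomogeneous k) →
      TorusFree S →
      (∀ Ω : Set ℂ, IsOpen Ω → IsPreconnected Ω → Ω.Nonempty → ∀ M : Set (ℂ → ℂ), CRing Ω M →
        ∀ f : ℂ → Fin (n + 1) → ℂ, MVec Ω M s r e f →
        (∀ z ∈ Ω, ∀ F ∈ S, eval (f z) F = 0) →
        ∀ u v, AlgM Ω M D (fun z => f z u) fun z => f z v) ∧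
      (∀ f : ℂ → ℙ ℂ (Fin (n + 1) → ℂ), HolMap f → OnV S f → SmallCurve s r e f →
        ∀ z w, f z = f w) ∧
      ∀ (L : AddSubgroup ℂ) (f : ℂ → ℙ ℂ (Fin (n + 1) → ℂ)), HolMap f → OnV S f →
        PerCurve L s r e f → (∃ Λ : AddSubgroup L, Λ.index ≠ 0 ∧ Λ.index ≤ D ∧
          ∀ l ∈ Λ, ∀ z, f (z + (l : ℂ)) = f z) ∧
        ((∃ a ∈ L, ∃ b ∈ L, LinearIndependent ℝ ![a, b]) → ∀ z w, f z = f w) :=
  torusFree_gen n D0 s r e

end Pool.Agent.Results.MP_45e720_ag.SmallCoefficients
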