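import Pool.Agent.Q171.RC.Torus
import Pool.Agent.Q171.RC.Hyp

/-!
# Varieties without maps from tori, in algebraic families

Let `k` be a field with an embedding in `ℂ` and let `X_t`, for `t = (t_1, ..., t_m)`, be an algebraic
family of projective varieties over `k`: `X_t` is given by forms in `n + 1` variables of degree at most
`D` whose coefficients are polynomials in `t` over `k`.

For all `n`, `D`, `s`, `r`, `e` there is a number `δ` with the following property: for every such family
there is a Zariski-OPEN set `U` of parameters, given by polynomials over `k`, such that for all `t`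
with coordinates in `ℂ`

(1) for EVERY lattice `L` in the plane, `t` is in `U` if and only if all holomorphic maps
`g : ℂ / L → X_t` which are given, outside of the lattice, by polynomials of degree at most `δ` at the
Weierstrass function of `L` are constant. In particular `U` contains all `t` for which all holomorphic
maps from complex tori (or only from one given torus `ℂ / L`) to `X_t` are constant;

(2) if `t` is in `U`, all curves `f : Ω → X_t`, on all domains `Ω` of the plane (for instance
`Ω = ℂ`), are constant if their homogeneous coordinates are given by `s` iterated linear differential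
equations with matrices of size `r` and polynomials of degree at most `e` (`DVec Ω s r e f`): there are
invertible matrices `X_1(z), ..., X_s(z)` of size `r` of analytic functions on `Ω` such that the entries
of `X_l'(z) X_l(z)⁻¹` are values of polynomials with constant coefficients, of degree at most `e` in
each variable, at the entries of `X_i(z)`, `X_i(z)⁻¹`, `i < l`, and the coordinates of `f(z)` are
values of such polynomials at the entries of all these matrices.

So, if `X_t` has no nonconstant maps from one torus `ℂ / L`, then for each complexity all members in a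
Zariski-open neighbourhood of `t` are hyperbolic with respect to the curves of this complexity.
-/

set_option autoImplicit false

namespace Pool.Agent.Results.MP_45e720_ag.TorusRigidityInFamilies

open MvPolynomial Filter Topology Pool.Agent.Q1.SL Pool.Agent.Q171.RC
open scoped LinearAlgebra.Projectivization PeriodPair

/-- The map `g` from the plane to projective space is holomorphic: near each point it is given by
homogeneous coordinates which are holomorphic and have no common zero. -/
def Holomorphic {n : ℕ} (g : ℂ → ℙ ℂ (Fin (n + 1) → ℂ)) : Prop :=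
  ∀ z, ∃ φ : ℂ → Fin (n + 1) → ℂ, AnalyticAt ℂ φ z ∧
    ∀ᶠ w in 𝓝 z, ∃ h : φ w ≠ 0, g w = Projectivization.mk ℂ (φ w) h

/-- All holomorphic maps from the torus `ℂ / L` to the projective variety of `S` which are given by
polynomials of degree at most `δ` at the Weierstrass function of `L` are constant. -/
def MapsConstant {n : ℕ} (L : PeriodPair) (S : Set (MvPolynomial (Fin (n + 1)) ℂ)) (δ : ℕ) : Prop :=
  ∀ g : ℂ → ℙ ℂ (Fin (n + 1) → ℂ), Holomorphic g → (∀ l ∈ L.lattice, ∀ z, g (z + l) = g z) →
    (∀ z, ∀ F ∈ S, eval (g z).rep F = 0) →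
    (∃ Q : Fin (n + 1) → Polynomial ℂ, (∀ j, (Q j).natDegree ≤ δ) ∧
      ∀ z, z ∉ L.lattice → ∃ h : (fun j => (Q j).eval (℘[L] z)) ≠ 0,
        g z = Projectivization.mk ℂ _ h) → ∀ z w, g z = g w

/-- All curves in the projective variety of `S`, on all domains `Ω` of the plane, given by `s`
iterated linear differential equations with matrices of size `r` and polynomials of degree at most
`e`, are constant. -/
def CurvesConstant {N : ℕ} (S : Set (MvPolynomial (Fin N) ℂ)) (s r e : ℕ) : Prop :=
  ∀ Ω : Set ℂ, IsOpen Ω → IsPreconnected Ω → ∀ f : ℂ → Fin N → ℂ, DVec Ω s r e f →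
    (∀ z ∈ Ω, ∀ F ∈ S, eval (f z) F = 0) →
    ∀ z ∈ Ω, ∀ w ∈ Ω, ∀ i j, f z i * f w j = f z j * f w i

/-- the equations of the member `X_t` of the family -/
def member {N m : ℕ} {k : Type} [Field k] [Algebra k ℂ]
    (S : Set (MvPolynomial (Fin N) (MvPolynomial (Fin m) k))) (t : Fin m → ℂ) :
    Set (MvPolynomial (Fin N) ℂ) := map (aeval t : MvPolynomial (Fin m) k →ₐ[k] ℂ).toRingHom '' S

/-- a holomorphic map avoids a point near a point where it is not taken -/
theorem near {n : ℕ} {g : ℂ → ℙ ℂ (Fin (n + 1) → ℂ)} (hg : Holomorphic g) {z : ℂ}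
    {P : ℙ ℂ (Fin (n + 1) → ℂ)} (h : g z ≠ P) : ∀ᶠ w in 𝓝 z, g w ≠ P := by
  obtain ⟨φ, hφ, hev⟩ := hg z
  obtain ⟨h0, h1⟩ := hev.self_of_nhds
  rw [← P.mk_rep] at h ⊢
  rw [h1, Ne, Pool.Agent.TH182.TC.mk_eq_mk_iff_minors] at h
  push Not at h
  obtain ⟨i, j, hij⟩ := h
  have hc : ContinuousAt (fun w => φ w i * P.rep j - P.rep i * φ w j) z := by
    have h2 := (continuousAt_pi.1 hφ.continuousAt)
    exact ((h2 i).mul continuousAt_const).sub (continuousAt_const.mul (h2 j))
  have h3' : φ z i * P.rep j - P.rep i * φ z j ≠ 0 := by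
    intro h4
    apply hij
    linear_combination h4
  have h3 := hc.eventually_ne h3'
  filter_upwards [h3, hev] with w hw hw'
  obtain ⟨h4, h5⟩ := hw'
  rw [h5, Ne, Pool.Agent.TH182.TC.mk_eq_mk_iff_minors]
  push Not
  refine ⟨i, j, fun h6 => hw ?_⟩
  linear_combination h6

theorem off {n : ℕ} {g : ℂ → ℙ ℂ (Fin (n + 1) → ℂ)} (hg : Holomorphic g) (L : PeriodPair) {z : ℂ}
    {P : ℙ ℂ (Fin (n + 1) → ℂ)} (h : g z ≠ P) : ∃ w, w ∉ L.lattice ∧ g w ≠ P := by
  have h1 := (near hg h).filter_mono (nhdsWithin_le_nhds (s := {z}ᶜ))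
  have h2 : ∀ᶠ w in 𝓝[≠] z, w ∉ L.lattice := by
    have h3 := L.compl_lattice_sdiff_singleton_mem_nhds z
    filter_upwards [nhdsWithin_le_nhds h3, self_mem_nhdsWithin] with w hw hw'
    intro hwL
    exact hw ⟨hwL, hw'⟩
  obtain ⟨w, hw, hw'⟩ := (h2.and h1).exists
  exact ⟨w, hw, hw'⟩

theorem noRat_iff {n : ℕ} (L : PeriodPair) {S : Set (MvPolynomial (Fin (n + 1)) ℂ)}
    (hS : ∀ F ∈ S, ∃ d, F.IsHomogeneous d) (δ : ℕ) : NoRatLe S δ ↔ MapsConstant L S δ := by
  classical
  constructor
  · rintro h g hg - hgS ⟨Q, hQ, hQg⟩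
    by_contra hcon
    push Not at hcon
    obtain ⟨z, w, hzw⟩ := hcon
    obtain ⟨z1, hz1, h1⟩ := off hg L hzw
    obtain ⟨w1, hw1, h2⟩ := off hg L h1.symm
    obtain ⟨a1, b1⟩ := hQg z1 hz1
    obtain ⟨a2, b2⟩ := hQg w1 hw1
    rw [b1, b2, Ne, Pool.Agent.TH182.TC.mk_eq_mk_iff_minors] at h2
    push Not at h2
    obtain ⟨i, j, hij⟩ := h2
    obtain ⟨F, hF, hne⟩ := h Q ⟨℘[L] w1, ℘[L] z1, i, j, fun h3 => hij h3⟩ hQ
    apply hne
    apply Polynomial.eq_of_infinite_eval_eq
    refine (Pool.Agent.TH182.TC.infinite_range L).mono ?_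
    rintro _ ⟨z, hz, rfl⟩
    change (aeval Q F).eval _ = (0 : Polynomial ℂ).eval _
    rw [eval_aeval_poly, Polynomial.eval_zero]
    obtain ⟨a3, b3⟩ := hQg z hz
    have h4 := hgS z F hF
    rw [b3] at h4
    obtain ⟨d, hd⟩ := hS F hF
    obtain ⟨a, ha⟩ := Projectivization.exists_smul_eq_mk_rep ℂ _ a3
    have h5 : (Projectivization.mk ℂ _ a3).rep = fun j => (a : ℂ) * (Q j).eval (℘[L] z) := by
      rw [← ha]
      rfl
    rw [h5, eval_smul_homog hd] at h4
    exact (mul_eq_zero.1 h4).resolve_left (pow_ne_zero _ a.ne_zero)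
  · intro h p hp hdeg
    by_contra hcon
    push Not at hcon
    obtain ⟨t, i, hti⟩ : ∃ t i, (p i).eval t ≠ 0 := by
      obtain ⟨s, t, i, j, hne⟩ := hp
      by_contra h1
      push Not at h1
      exact hne (by rw [h1 s i, h1 s j, zero_mul, zero_mul])
    have hon : OnRat S δ fun j => (p j).eval t := by
      rw [onRat_iff]
      exact HasPt.of_curve (φ := RingHom.id ℂ) hS hp hdeg (fun F hF => by
        rw [MvPolynomial.map_id]
        exact hcon F hF) t
    obtain ⟨g, h1, h2, h3, ⟨z, w, h4⟩, -, h6⟩ := torus_through L hS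
      (x := fun j => (p j).eval t) (fun h0 => hti (congrFun h0 i)) hon
    exact h4 (h g h1 h3 (fun z F hF => h2 z ⟨F, hF⟩) h6 z w)

theorem result (n D s r e : ℕ) : ∃ δ : ℕ,
    ∀ (k : Type) [Field k] [Algebra k ℂ] (m : ℕ)
      (S : Set (MvPolynomial (Fin (n + 1)) (MvPolynomial (Fin m) k))),
      (∀ F ∈ S, ∃ e, e ≤ D ∧ F.IsHomogeneous e) →
      ∃ Ps : Set (MvPolynomial (Fin m) k),
        (∀ (t : Fin m → ℂ) (L : PeriodPair),
          (∃ Ψ ∈ Ps, aeval t Ψ ≠ 0) ↔ MapsConstant L (member S t) δ) ∧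
        ∀ t : Fin m → ℂ, (∃ Ψ ∈ Ps, aeval t Ψ ≠ 0) → CurvesConstant (member S t) s r e := by
  obtain ⟨δ, B, hfam⟩ := family (n := n) (D := D) s r e
  refine ⟨δ, fun k _ _ m S hS => ?_⟩
  obtain ⟨Ps, h1, h2⟩ := hfam S hS
  refine ⟨Ps, fun t L => (h1 t).trans (noRat_iff L ?_ δ), fun t ht => (h2 t ht).1⟩
  rintro _ ⟨F, hF, rfl⟩
  obtain ⟨e, -, he⟩ := hS F hF
  exact ⟨e, he.map _⟩

end Pool.Agent.Results.MP_45e720_ag.TorusRigidityInFamilies
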